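import Pool.Agent.H47.UG.Ch

/-! The generic form of degree `d` in `n + 2` variables is smooth (field `smooth` of `Nice`). -/

set_option autoImplicit false

open MvPolynomial

namespace Pool.Agent.H49.UG

variable {n d : ℕ}

/-- the coefficient ring -/
abbrev RR (n : ℕ) := MvPolynomial ((Fin (n + 2)) →₀ ℕ) ℂ

/-- the generic form over the coefficient ring -/
noncomputable def gen (n d : ℕ) : MvPolynomial (Fin (n + 2)) (RR n) :=
  ∑ a ∈ (Finset.finsuppAntidiag Finset.univ d : Finset (Fin (n + 2) →₀ ℕ)), monomial a (X a)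

theorem genForm_eq (n d : ℕ) : Pool.Agent.H47.UG.genForm n d =
    map (algebraMap (RR n) (FractionRing (RR n))) (gen n d) := by
  rw [gen, map_sum]
  simp only [map_monomial]
  rfl

/-- the point of the Fermat form -/
noncomputable def fermatPt (n d : ℕ) : RR n →+* ℂ := by
  classical
  exact eval fun a => if ∃ i, a = Finsupp.single i d then 1 else 0

theorem mem_anti {N : ℕ} {b : Fin (n + 2) →₀ ℕ} :
    b ∈ (Finset.finsuppAntidiag Finset.univ N : Finset (Fin (n + 2) →₀ ℕ)) ↔ ∑ i, b i = N := by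
  rw [Finset.mem_finsuppAntidiag]
  simp

theorem fermat_eq (hd : 1 ≤ d) : map (fermatPt n d) (gen n d) = ∑ i, (X i : MvPolynomial (Fin (n + 2)) ℂ) ^ d := by
  classical
  rw [gen, map_sum]
  simp only [map_monomial]
  have h1 : ∀ a : Fin (n + 2) →₀ ℕ, fermatPt n d (X a) = if ∃ i, a = Finsupp.single i d then 1 else 0 := by
    intro a
    simp only [fermatPt, eval_X]
  simp only [h1]
  have h2 : ∀ i : Fin (n + 2), (X i : MvPolynomial (Fin (n + 2)) ℂ) ^ d = monomial (Finsupp.single i d) 1 := by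
    intro i
    rw [X_pow_eq_monomial]
  simp only [h2]
  symm
  rw [← Finset.sum_subset (s₁ := Finset.univ.image fun i : Fin (n + 2) => Finsupp.single i d)]
  · rw [Finset.sum_image]
    · refine Finset.sum_congr rfl fun i _ => ?_
      rw [if_pos ⟨i, rfl⟩]
    · intro i _ j _ h
      exact (Finsupp.single_left_inj (by omega)).1 h
  · intro a ha
    obtain ⟨i, -, rfl⟩ := Finset.mem_image.1 ha
    rw [mem_anti]
    simp [Finsupp.single_apply]
  · intro a _ ha
    rw [if_neg, map_zero]
    rintro ⟨i, rfl⟩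
    exact ha (Finset.mem_image_of_mem _ (Finset.mem_univ i))

/-- some exponent of a monomial of degree `(n + 2) d` is at least `d - 1` -/
theorem exists_large (hd : 2 ≤ d) {b : Fin (n + 2) →₀ ℕ} (hb : ∑ i, b i = (n + 2) * d) : ∃ j, d - 1 ≤ b j := by
  by_contra h
  push Not at h
  have h1 : ∑ i, b i < ∑ _i : Fin (n + 2), d :=
    Finset.sum_lt_sum_of_nonempty Finset.univ_nonempty fun i _ => lt_of_lt_of_le (h i) (by omega)
  rw [Finset.sum_const, Finset.card_univ, Fintype.card_fin, smul_eq_mul] at h1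
  omega

/-- the chosen index -/
noncomputable def jj (hd : 2 ≤ d) (b : {b : Fin (n + 2) →₀ ℕ // ∑ i, b i = (n + 2) * d}) : Fin (n + 2) :=
  (exists_large hd b.2).choose

theorem jj_spec (hd : 2 ≤ d) (b : {b : Fin (n + 2) →₀ ℕ // ∑ i, b i = (n + 2) * d}) : d - 1 ≤ b.1 (jj hd b) :=
  (exists_large hd b.2).choose_spec

/-- `X^b / X_j^(d-1)` times the derivative -/
noncomputable def HH {A : Type} [CommRing A] (hd : 2 ≤ d) (G : MvPolynomial (Fin (n + 2)) A)
    (b : {b : Fin (n + 2) →₀ ℕ // ∑ i, b i = (n + 2) * d}) : MvPolynomial (Fin (n + 2)) A :=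
  monomial (b.1 - Finsupp.single (jj hd b) (d - 1)) 1 * pderiv (jj hd b) G

theorem map_HH {A B : Type} [CommRing A] [CommRing B] (φ : A →+* B) (hd : 2 ≤ d) (G : MvPolynomial (Fin (n + 2)) A)
    (b : {b : Fin (n + 2) →₀ ℕ // ∑ i, b i = (n + 2) * d}) : map φ (HH hd G b) = HH hd (map φ G) b := by
  rw [HH, HH, map_mul, map_monomial, map_one, pderiv_map]

theorem HH_hom {A : Type} [CommRing A] (hd : 2 ≤ d) (G : MvPolynomial (Fin (n + 2)) A) (hG : G.IsHomogeneous d)
    (b : {b : Fin (n + 2) →₀ ℕ // ∑ i, b i = (n + 2) * d}) : (HH hd G b).IsHomogeneous ((n + 2) * d) := by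
  have h1 : (b.1 - Finsupp.single (jj hd b) (d - 1)).degree + (d - 1) = (n + 2) * d := by
    have h2 : b.1 = (b.1 - Finsupp.single (jj hd b) (d - 1)) + Finsupp.single (jj hd b) (d - 1) := by
      rw [tsub_add_cancel_of_le]
      exact Finsupp.single_le_iff.2 (jj_spec hd b)
    have h3 := congrArg Finsupp.degree h2
    rw [map_add, Finsupp.degree_single] at h3
    rw [← h3, Finsupp.degree_eq_sum]
    exact b.2
  have h4 := (isHomogeneous_monomial (1 : A) (rfl : (b.1 - Finsupp.single (jj hd b) (d - 1)).degree = _)).mul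
    (hG.pderiv (i := jj hd b))
  rwa [h1] at h4

theorem HH_fermat (hd : 2 ≤ d) (b : {b : Fin (n + 2) →₀ ℕ // ∑ i, b i = (n + 2) * d}) :
    HH hd (∑ i, (X i : MvPolynomial (Fin (n + 2)) ℂ) ^ d) b = monomial b.1 (d : ℂ) := by
  classical
  rw [HH, map_sum]
  simp only [pderiv_pow, pderiv_X, Pi.single_apply, mul_ite, mul_one, mul_zero]
  rw [Finset.sum_ite_eq' Finset.univ (jj hd b), if_pos (Finset.mem_univ _)]
  have h1 : ((d : MvPolynomial (Fin (n + 2)) ℂ)) * X (jj hd b) ^ (d - 1) =
      monomial (Finsupp.single (jj hd b) (d - 1)) (d : ℂ) := by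
    rw [X_pow_eq_monomial, ← C_eq_coe_nat, C_mul_monomial, mul_one]
  rw [h1, monomial_mul, one_mul, tsub_add_cancel_of_le]
  exact Finsupp.single_le_iff.2 (jj_spec hd b)

instance (n d : ℕ) : Fintype {b : Fin (n + 2) →₀ ℕ // ∑ i, b i = (n + 2) * d} :=
  Fintype.subtype (Finset.finsuppAntidiag Finset.univ ((n + 2) * d)) fun _ => mem_anti

/-- the matrix of the coefficients -/
noncomputable def MM {A : Type} [CommRing A] (hd : 2 ≤ d) (G : MvPolynomial (Fin (n + 2)) A) :
    Matrix {b : Fin (n + 2) →₀ ℕ // ∑ i, b i = (n + 2) * d} {b : Fin (n + 2) →₀ ℕ // ∑ i, b i = (n + 2) * d} A :=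
  Matrix.of fun b b' => coeff b.1 (HH hd G b')

theorem map_MM {A B : Type} [CommRing A] [CommRing B] (φ : A →+* B) (hd : 2 ≤ d)
    (G : MvPolynomial (Fin (n + 2)) A) : (MM hd G).map φ = MM hd (map φ G) := by
  ext b b'
  rw [Matrix.map_apply, MM, MM, Matrix.of_apply, Matrix.of_apply, ← map_HH, coeff_map]

open Classical in
theorem det_gen_ne (hd : 2 ≤ d) : (MM hd (gen n d)).det ≠ 0 := by
  intro h
  have h1 : ((MM hd (gen n d)).map (fermatPt n d)).det = 0 := by
    rw [← RingHom.mapMatrix_apply, ← RingHom.map_det, h, map_zero]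
  rw [map_MM, fermat_eq (by omega)] at h1
  have h2 : MM hd (∑ i, (X i : MvPolynomial (Fin (n + 2)) ℂ) ^ d) = Matrix.diagonal fun _ => (d : ℂ) := by
    ext b b'
    rw [MM, Matrix.of_apply, HH_fermat, coeff_monomial, Matrix.diagonal_apply]
    by_cases hb : b = b'
    · rw [if_pos (by rw [hb]), if_pos hb]
    · rw [if_neg fun h => hb (Subtype.ext h.symm), if_neg hb]
  rw [h2, Matrix.det_diagonal, Finset.prod_const] at h1
  exact pow_ne_zero _ (Nat.cast_ne_zero.2 (by omega : d ≠ 0)) h1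

theorem gen_hom (n d : ℕ) : (gen n d).IsHomogeneous d := by
  refine IsHomogeneous.sum _ _ _ fun a ha => isHomogeneous_monomial _ ?_
  rw [Finsupp.degree_eq_sum]
  exact mem_anti.1 ha

open Classical in
/-- the generic form is smooth -/
theorem smooth_gen (hd : 2 ≤ d) : ∃ N : ℕ, ∀ i,
    (X i : Pool.Agent.H47.UG.HP (FractionRing (MvPolynomial ((Fin (n + 2)) →₀ ℕ) ℂ)) n) ^ N ∈
      Ideal.span (Set.range fun j => pderiv j (Pool.Agent.H47.UG.genForm n d)) := by
  refine ⟨(n + 2) * d, fun i => ?_⟩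
  set K := FractionRing (RR n) with hK
  set F := Pool.Agent.H47.UG.genForm n d with hF
  have hFh : F.IsHomogeneous d := by
    rw [hF, genForm_eq]
    exact (gen_hom n d).map _
  have hdet : (MM hd F).det ≠ 0 := by
    rw [hF, genForm_eq, ← map_MM, ← RingHom.mapMatrix_apply, ← RingHom.map_det]
    intro h
    exact det_gen_ne hd ((IsFractionRing.injective (RR n) K) (by rw [h, map_zero]))
  let b0 : {b : Fin (n + 2) →₀ ℕ // ∑ i, b i = (n + 2) * d} :=
    ⟨Finsupp.single i ((n + 2) * d), by simp [Finsupp.single_apply]⟩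
  set v := (MM hd F)⁻¹.mulVec (Pi.single b0 1) with hv
  have h1 : (MM hd F).mulVec v = Pi.single b0 1 := by
    rw [hv, Matrix.mulVec_mulVec, Matrix.mul_nonsing_inv _ (isUnit_iff_ne_zero.2 hdet), Matrix.one_mulVec]
  have h2 : (X i : MvPolynomial (Fin (n + 2)) K) ^ ((n + 2) * d) = ∑ b, C (v b) * HH hd F b := by
    ext b
    rw [coeff_sum]
    simp only [coeff_C_mul]
    by_cases hb : ∑ i, b i = (n + 2) * d
    · have h3 := congrFun h1 ⟨b, hb⟩
      rw [Matrix.mulVec, dotProduct] at h3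
      simp only [MM, Matrix.of_apply] at h3
      rw [X_pow_eq_monomial, coeff_monomial]
      simp only [mul_comm (v _)]
      rw [h3, Pi.single_apply]
      by_cases hbb : (⟨b, hb⟩ : {b : Fin (n + 2) →₀ ℕ // ∑ i, b i = (n + 2) * d}) = b0
      · rw [if_pos hbb, if_pos (congrArg Subtype.val hbb).symm]
      · rw [if_neg hbb, if_neg fun h => hbb (Subtype.ext h.symm)]
    · rw [Finset.sum_eq_zero, X_pow_eq_monomial, coeff_monomial, if_neg]
      · rintro rfl
        exact hb (by simp [Finsupp.single_apply])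
      · intro b' _
        have h3 := HH_hom hd F hFh b'
        have h4 : coeff b (HH hd F b') = 0 := by
          by_contra h5
          have h6 := h3 h5
          have h7 : b.degree = (n + 2) * d := by
            rw [Finsupp.degree_eq_weight_one]
            exact h6
          rw [Finsupp.degree_eq_sum] at h7
          exact hb h7
        rw [h4, mul_zero]
  rw [h2]
  refine Ideal.sum_mem _ fun b _ => Ideal.mul_mem_left _ _ ?_
  rw [HH]
  exact Ideal.mul_mem_left _ _ (Ideal.subset_span ⟨jj hd b, rfl⟩)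

end Pool.Agent.H49.UG
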